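import Pool.Agent.Helper41.Span

/-!
The rank 2 quantum cluster algebra.
-/

set_option autoImplicit false
set_option linter.unusedSectionVars false

open LaurentPolynomial

namespace Pool.Agent.Helper41

open QTorus

theorem twist_self (a : ℤ × ℤ) : twist a a = 0 := by simp [twist]; ring

theorem mono_mul_mono (a b : ℤ × ℤ) :
    mono a * mono b = (T (twist a b) : Lv) • mono (a + b) := by
  simp [mono, term_mul_term, smul_term]

theorem mono_zero : mono 0 = 1 := rfl
theorem mono_zero' : mono (0, 0) = 1 := rfl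

theorem mono_comm (a b : ℤ × ℤ) :
    mono a * mono b = (T (2 * twist a b) : Lv) • (mono b * mono a) := by
  rw [mono_mul_mono, mono_mul_mono, smul_smul, ← T_add, twist_swap a b, add_comm b a]
  congr 2
  ring

theorem mono_pow (a : ℤ × ℤ) (n : ℕ) : mono a ^ n = mono (n • a) := by
  induction n with
  | zero => simp [mono_zero]
  | succ n ih =>
    have h : twist (n • a) a = 0 := by
      simp [twist]; ring
    rw [pow_succ, ih, mono_mul_mono, h, T_zero, one_smul, succ_nsmul]

theorem mono_ne_zero (a : ℤ × ℤ) : mono a ≠ 0 := by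
  intro h
  have := congrArg (fun x => coeff x a) h
  simp [mono, coeff_term] at this

theorem mono_add_mono_ne_zero {a b : ℤ × ℤ} (h : a ≠ b) : mono a + mono b ≠ 0 := by
  intro h0
  have := congrArg (fun x => coeff x a) h0
  simp [mono, coeff_term, h.symm] at this

/-- The defining relations of the rank 2 quantum cluster variables `X_m` (`m ∈ ℤ`) inside the
quantum torus of the initial cluster `{X₁, X₂}`. -/
structure IsClusterSeq (b c : ℕ) (X : ℤ → QTorus) : Prop where
  one : X 1 = mono (1, 0)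
  two : X 2 = mono (0, 1)
  odd : ∀ m : ℤ, Odd m → X (m + 1) * X (m - 1) = (T (b : ℤ) : Lv) • X m ^ b + 1
  even : ∀ m : ℤ, Even m → X (m + 1) * X (m - 1) = (T (c : ℤ) : Lv) • X m ^ c + 1

/-- The cluster variable `X₀`. -/
noncomputable def baseX0 (b : ℕ) : QTorus := mono (0, -1) + mono (b, -1)
/-- The cluster variable `X₃`. -/
noncomputable def baseX3 (c : ℕ) : QTorus := mono (-1, 0) + mono (-1, c)

theorem baseQuad {b c : ℕ} (hb : 0 < b) (hc : 0 < c) :
    Quad b c (baseX0 b) (mono (1, 0)) (mono (0, 1)) (baseX3 c) where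
  r02 := by simp [baseX0, mul_add, mono_mul_mono, twist, mono_pow, mono_zero', add_comm]
  r02' := by simp [baseX0, add_mul, mono_mul_mono, twist, mono_pow, mono_zero', add_comm]
  r13 := by simp [baseX3, add_mul, mono_mul_mono, twist, mono_pow, mono_zero', add_comm]
  r13' := by simp [baseX3, mul_add, mono_mul_mono, twist, mono_pow, mono_zero', add_comm]
  q01 := by
    rw [baseX0, mul_add, add_mul, smul_add, mono_comm (1, 0) (0, -1), mono_comm (1, 0) (b, -1)]
    simp [twist]
  q12 := by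
    rw [mono_comm (0, 1) (1, 0)]
    simp [twist]
  q23 := by
    rw [baseX3, mul_add, add_mul, smul_add, mono_comm (-1, 0) (0, 1), mono_comm (-1, c) (0, 1)]
    simp [twist]
  n0 := mono_add_mono_ne_zero (by simp; omega)
  n1 := mono_ne_zero _
  n2 := mono_ne_zero _
  n3 := mono_add_mono_ne_zero (by simp; omega)

theorem base03 {b c : ℕ} (hb : 0 < b) (hc : 0 < c) : ∃ κ : Lv,
    baseX3 c * baseX0 b = (T (-2) : Lv) • (baseX0 b * baseX3 c) +
      κ • ((mono (1, 0)) ^ (b - 1) * (mono (0, 1)) ^ (c - 1)) := by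
  refine ⟨(T ((b : ℤ) * c - 1) - T (-2 + (1 - (b : ℤ) * c))) * T ((b - 1) * (c - 1)), ?_⟩
  have e1 : (mono (1, 0)) ^ (b - 1) * (mono (0, 1)) ^ (c - 1) =
      (T (-((b - 1) * (c - 1) : ℤ)) : Lv) • mono ((b : ℤ) - 1, (c : ℤ) - 1) := by
    simp [mono_pow, mono_mul_mono, twist, Nat.cast_sub (Nat.one_le_of_lt hb),
      Nat.cast_sub (Nat.one_le_of_lt hc)]
  have e2 : baseX3 c * baseX0 b = (T (-1) : Lv) • mono (-1, -1) + (T (-1) : Lv) • mono (-1, (c : ℤ) - 1)
      + (T (-1) : Lv) • mono ((b : ℤ) - 1, -1) + (T ((b : ℤ) * c - 1) : Lv) • mono ((b : ℤ) - 1, (c : ℤ) - 1) := by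
    simp only [baseX3, baseX0, add_mul, mul_add, mono_mul_mono, twist, Prod.mk_add_mk]
    have h1 : (-1 + (b : ℤ)) = b - 1 := by ring
    have h2 : ((c : ℤ) + -1) = c - 1 := by ring
    have h3 : ((c : ℤ) * b - -1 * -1) = b * c - 1 := by ring
    have h4 : ((c : ℤ) * 0 - -1 * -1) = -1 := by ring
    have h5 : ((0 : ℤ) * b - -1 * -1) = -1 := by ring
    have h6 : ((0 : ℤ) * 0 - -1 * -1) = -1 := by ring
    rw [h1, h2, h3, h4, h5, h6]
    simp only [add_zero, zero_add]
    abel
  have e3 : baseX0 b * baseX3 c = (T 1 : Lv) • mono (-1, -1) + (T 1 : Lv) • mono (-1, (c : ℤ) - 1)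
      + (T 1 : Lv) • mono ((b : ℤ) - 1, -1) + (T (1 - (b : ℤ) * c) : Lv) • mono ((b : ℤ) - 1, (c : ℤ) - 1) := by
    simp only [baseX3, baseX0, add_mul, mul_add, mono_mul_mono, twist, Prod.mk_add_mk]
    have h1 : ((b : ℤ) + -1) = b - 1 := by ring
    have h2 : (-1 + (c : ℤ)) = c - 1 := by ring
    have h3 : (-1 * -1 - (b : ℤ) * c) = 1 - b * c := by ring
    have h4 : (-1 * -1 - 0 * (c : ℤ)) = 1 := by ring
    have h5 : (-1 * -1 - (b : ℤ) * 0) = 1 := by ring
    have h6 : (-1 * -1 - (0 : ℤ) * 0) = 1 := by ring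
    rw [h1, h2, h3, h4, h5, h6]
    simp only [add_zero, zero_add]
    abel
  have hκ : (T ((b : ℤ) * c - 1) - T (-2 + (1 - (b : ℤ) * c)) : Lv) * T ((b - 1) * (c - 1)) *
      T (-((b - 1) * (c - 1) : ℤ)) = T ((b : ℤ) * c - 1) - T (-2 + (1 - (b : ℤ) * c)) := by
    rw [mul_assoc, ← T_add, add_neg_cancel, T_zero, mul_one]
  have h21 : (T (-2) : Lv) * T 1 = T (-1) := by rw [← T_add]; norm_num
  have h2b : (T (-2) : Lv) * T (1 - (b : ℤ) * c) = T (-2 + (1 - (b : ℤ) * c)) := by rw [← T_add]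
  rw [e1, e2, e3, smul_smul, hκ, sub_smul]
  simp only [smul_add, smul_smul, h21, h2b]
  abel

/-- A general sequence of quadruples satisfying the exchange relations. -/
theorem exists_isClusterSeq_aux {b c : ℕ} (hb : 0 < b) (hc : 0 < c) :
    ∃ X : ℤ → QTorus, IsClusterSeq b c X ∧ X 0 = baseX0 b ∧ X 3 = baseX3 c ∧
      (∀ m, X m ≠ 0) ∧
      ∀ m, X m ∈ Algebra.adjoin Lv ({baseX0 b, mono (1, 0), mono (0, 1), baseX3 c} : Set QTorus) := by
  have hq := baseQuad hb hc
  refine ⟨seq b c (baseX0 b) (mono (1, 0)) (mono (0, 1)) (baseX3 c), ⟨rfl, rfl, ?_, ?_⟩, rfl, rfl, ?_,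
    seq_mem⟩
  · intro m hm
    have h := (seq_quad (fun _ _ => smul_eq_zero') hb hc hq (m - 1)).1 (by
      rw [Int.even_sub_one]; exact Int.not_even_iff_odd.2 hm)
    have e1 : m - 1 + 2 = m + 1 := by ring
    have e2 : m - 1 + 1 = m := by ring
    have := h.r02
    rwa [e1, e2] at this
  · intro m hm
    have h := (seq_quad (fun _ _ => smul_eq_zero') hb hc hq (m - 1)).2 (by
      rw [Int.even_sub_one]; simpa using hm)
    have e1 : m - 1 + 2 = m + 1 := by ring
    have e2 : m - 1 + 1 = m := by ring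
    have := h.r02
    rwa [e1, e2] at this
  · intro m
    by_cases h : Even m
    · exact ((seq_quad (fun _ _ => smul_eq_zero') hb hc hq m).1 h).n0
    · exact ((seq_quad (fun _ _ => smul_eq_zero') hb hc hq m).2 h).n0

/-- The cluster variables exist in the quantum torus (quantum Laurent phenomenon in rank 2) and
are determined by the exchange relations. -/
theorem existsUnique_isClusterSeq {b c : ℕ} (hb : 0 < b) (hc : 0 < c) :
    ∃! X : ℤ → QTorus, IsClusterSeq b c X := by
  obtain ⟨X, hX, -, -, hne, -⟩ := exists_isClusterSeq_aux hb hc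
  refine ⟨X, hX, ?_⟩
  intro Y hY
  have hup : ∀ n : ℕ, Y (1 + n) = X (1 + n) ∧ Y (2 + n) = X (2 + n) := by
    intro n
    induction n with
    | zero => exact ⟨by simp [hX.one, hY.one], by simp [hX.two, hY.two]⟩
    | succ n ih =>
      have e1 : (1 : ℤ) + (n + 1 : ℕ) = 2 + n := by push_cast; ring
      have e2 : (2 : ℤ) + (n + 1 : ℕ) = (2 + n) + 1 := by push_cast; ring
      have e3 : (2 : ℤ) + n - 1 = 1 + n := by ring
      rw [e1, e2]
      refine ⟨ih.2, ?_⟩
      apply mul_right_cancel₀ (hne (1 + n))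
      rcases Int.even_or_odd (2 + n : ℤ) with hp | hp
      · have h1 := hX.even _ hp
        have h2 := hY.even _ hp
        rw [e3] at h1 h2
        rw [h1, ← ih.1, ← ih.2, ← h2]
      · have h1 := hX.odd _ hp
        have h2 := hY.odd _ hp
        rw [e3] at h1 h2
        rw [h1, ← ih.1, ← ih.2, ← h2]
  have hdown : ∀ n : ℕ, Y (1 - n) = X (1 - n) ∧ Y (2 - n) = X (2 - n) := by
    intro n
    induction n with
    | zero => exact ⟨by simp [hX.one, hY.one], by simp [hX.two, hY.two]⟩
    | succ n ih =>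
      have e1 : (2 : ℤ) - (n + 1 : ℕ) = 1 - n := by push_cast; ring
      have e2 : (1 : ℤ) - (n + 1 : ℕ) = (1 - n) - 1 := by push_cast; ring
      have e3 : (1 : ℤ) - n + 1 = 2 - n := by ring
      rw [e1, e2]
      refine ⟨?_, ih.1⟩
      apply mul_left_cancel₀ (hne (2 - n))
      rcases Int.even_or_odd (1 - n : ℤ) with hp | hp
      · have h1 := hX.even _ hp
        have h2 := hY.even _ hp
        rw [e3] at h1 h2
        rw [h1, ← ih.1, ← ih.2, ← h2]
      · have h1 := hX.odd _ hp
        have h2 := hY.odd _ hp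
        rw [e3] at h1 h2
        rw [h1, ← ih.1, ← ih.2, ← h2]
  funext m
  rcases le_or_gt 1 m with h | h
  · obtain ⟨n, hn⟩ := Int.eq_ofNat_of_zero_le (a := m - 1) (by omega)
    have : m = 1 + n := by omega
    rw [this]; exact (hup n).1
  · obtain ⟨n, hn⟩ := Int.eq_ofNat_of_zero_le (a := 1 - m) (by omega)
    have : m = 1 - n := by omega
    rw [this]; exact (hdown n).1

/-- The cluster variables `X_m` (`m ∈ ℤ`) of the rank 2 quantum cluster algebra `𝒜_v(b,c)`:
the unique sequence in the quantum torus with `X₁, X₂` the generators which satisfies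
the exchange relations. -/
noncomputable def clusterVar (b c : ℕ+) : ℤ → QTorus :=
  (existsUnique_isClusterSeq b.pos c.pos).choose

theorem clusterVar_spec (b c : ℕ+) : IsClusterSeq b c (clusterVar b c) :=
  (existsUnique_isClusterSeq b.pos c.pos).choose_spec.1

/-- The rank 2 quantum cluster algebra `𝒜_v(b,c)`. -/
noncomputable def clusterAlgebra (b c : ℕ+) : Subalgebra Lv QTorus :=
  Algebra.adjoin Lv (Set.range (clusterVar b c))

theorem clusterVar_props (b c : ℕ+) : clusterVar b c 0 = baseX0 b ∧ clusterVar b c 1 = mono (1, 0) ∧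
    clusterVar b c 2 = mono (0, 1) ∧ clusterVar b c 3 = baseX3 c ∧
      ∀ m, clusterVar b c m ∈
        Algebra.adjoin Lv ({baseX0 b, mono (1, 0), mono (0, 1), baseX3 c} : Set QTorus) := by
  obtain ⟨X, hX, h0, h3, -, hm⟩ := exists_isClusterSeq_aux b.pos c.pos
  have : clusterVar b c = X :=
    (existsUnique_isClusterSeq b.pos c.pos).unique (clusterVar_spec b c) hX
  rw [this]
  exact ⟨h0, hX.one, hX.two, h3, hm⟩

/-- The quantum cluster algebra is spanned by the standard monomials in `X₀, X₁, X₂, X₃`. -/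
theorem clusterAlgebra_le_span (b c : ℕ+) {x : QTorus} (hx : x ∈ clusterAlgebra b c) :
    x ∈ Submodule.span Lv (stdSet (baseX0 b) (mono (1, 0)) (mono (0, 1)) (baseX3 c)) := by
  obtain ⟨κ, hκ⟩ := base03 b.pos c.pos
  refine adjoin_le_span_std (baseQuad b.pos c.pos) hκ ?_
  refine Algebra.adjoin_le ?_ hx
  rintro _ ⟨m, rfl⟩
  exact (clusterVar_props b c).2.2.2.2 m

end Pool.Agent.Helper41
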