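import Pool.Agent.Helper41.Cluster

/-!
Positivity and pointedness in the rank 2 quantum torus.
-/

set_option autoImplicit false
set_option linter.unusedSectionVars false

open LaurentPolynomial

namespace Pool.Agent.Helper41

open QTorus

/-- Laurent polynomials with nonnegative coefficients. -/
def NN (r : Lv) : Prop := ∀ n : ℤ, 0 ≤ r.coeff n

theorem NN.zero : NN 0 := fun _ => le_rfl
theorem NN.add {r s : Lv} (hr : NN r) (hs : NN s) : NN (r + s) := fun n => add_nonneg (hr n) (hs n)
theorem NN.T (k : ℤ) : NN (T k) := by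
  intro n
  rw [T_apply]
  split_ifs <;> simp

theorem NN.mul {r s : Lv} (hr : NN r) (hs : NN s) : NN (r * s) := by
  intro n
  classical
  rw [AddMonoidAlgebra.coeff_mul]
  refine Finset.sum_nonneg fun i _ => Finset.sum_nonneg fun j _ => ?_
  dsimp only
  split_ifs
  · exact mul_nonneg (hr i) (hs j)
  · exact le_rfl

theorem NN.sum {ι : Type*} {s : Finset ι} {f : ι → Lv} (h : ∀ i ∈ s, NN (f i)) :
    NN (∑ i ∈ s, f i) := by
  classical
  induction s using Finset.induction_on with
  | empty => simpa using NN.zero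
  | insert a s ha ih =>
    rw [Finset.sum_insert ha]
    exact (h a (by simp)).add (ih fun i hi => h i (by simp [hi]))

theorem coeff_Lv_sum {ι : Type*} (s : Finset ι) (f : ι → Lv) (n : ℤ) :
    (∑ i ∈ s, f i).coeff n = ∑ i ∈ s, (f i).coeff n := by
  classical
  induction s using Finset.induction_on with
  | empty => simp
  | insert a s ha ih =>
    rw [Finset.sum_insert ha, Finset.sum_insert ha, ← ih]
    rfl

theorem NN.le_mul_coeff {r s : Lv} (hr : NN r) (hs : NN s) (i j : ℤ) :
    r.coeff i * s.coeff j ≤ (r * s).coeff (i + j) := by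
  classical
  by_cases hi : r.coeff i = 0
  · rw [hi, zero_mul]; exact hr.mul hs _
  by_cases hj : s.coeff j = 0
  · rw [hj, mul_zero]; exact hr.mul hs _
  rw [AddMonoidAlgebra.coeff_mul]
  have h1 : ∀ i' ∈ r.coeff.support, 0 ≤ (s.coeff.sum fun m₂ r₂ =>
      if i' + m₂ = i + j then r.coeff i' * r₂ else 0) := by
    intro i' _
    refine Finset.sum_nonneg fun j' _ => ?_
    dsimp only
    split_ifs
    · exact mul_nonneg (hr i') (hs j')
    · exact le_rfl
  refine le_trans ?_ (Finset.single_le_sum h1 (Finsupp.mem_support_iff.2 hi))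
  have h2 : ∀ j' ∈ s.coeff.support, 0 ≤ (if i + j' = i + j then r.coeff i * s.coeff j' else 0) := by
    intro j' _
    split_ifs
    · exact mul_nonneg (hr i) (hs j')
    · exact le_rfl
  refine le_trans ?_ (Finset.single_le_sum h2 (Finsupp.mem_support_iff.2 hj))
  simp

theorem NN.exists_pos {r : Lv} (hr : NN r) (h : r ≠ 0) : ∃ i, 0 < r.coeff i := by
  by_contra h'
  push Not at h'
  apply h
  ext i
  exact le_antisymm (h' i) (hr i)

/-- If a product of nonnegative Laurent polynomials is a power of `v`, so are the factors. -/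
theorem NN.eq_T_of_mul_eq_T {r s : Lv} (hr : NN r) (hs : NN s) {n : ℤ} (h : r * s = LaurentPolynomial.T n) :
    ∃ k, s = LaurentPolynomial.T k := by
  have hr0 : r ≠ 0 := by rintro rfl; rw [zero_mul] at h; exact T_ne_zero n h.symm
  have hs0 : s ≠ 0 := by rintro rfl; rw [mul_zero] at h; exact T_ne_zero n h.symm
  obtain ⟨i, hi⟩ := hr.exists_pos hr0
  obtain ⟨k, hk⟩ := hs.exists_pos hs0
  have hT : ∀ j, 0 < s.coeff j → i + j = n ∧ s.coeff j = 1 := by
    intro j hj
    have h1 := hr.le_mul_coeff hs i j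
    rw [h, T_apply] at h1
    have h2 : 0 < r.coeff i * s.coeff j := mul_pos hi hj
    split_ifs at h1 with h3
    · refine ⟨h3.symm, ?_⟩
      nlinarith
    · omega
  refine ⟨k, ?_⟩
  ext j
  rw [T_apply]
  split_ifs with h4
  · rw [← h4]; exact (hT k hk).2
  · by_contra h5
    have h6 : 0 < s.coeff j := lt_of_le_of_ne (hs j) (Ne.symm h5)
    have := (hT j h6).1
    have := (hT k hk).1
    omega

/-- All coefficients are nonnegative. -/
def PosElt (x : QTorus) : Prop := ∀ a, NN (coeff x a)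

/-- `x` only involves the monomials `X^(bp - a₁, cq - a₂)` with `p, q ≥ 0`. -/
def Low (b c : ℕ+) (a : ℤ × ℤ) (x : QTorus) : Prop :=
  ∀ s, coeff x s ≠ 0 → ∃ p q : ℕ, s = ((b : ℤ) * p - a.1, (c : ℤ) * q - a.2)

/-- Pointed at `a` up to a power of `v`. -/
def PtU (b c : ℕ+) (a : ℤ × ℤ) (x : QTorus) : Prop :=
  Low b c a x ∧ ∃ n : ℤ, coeff x (-a) = T n

theorem PtU.mul {b c : ℕ+} {a a' : ℤ × ℤ} {x y : QTorus} (hx : PtU b c a x) (hy : PtU b c a' y) :
    PtU b c (a + a') (x * y) := by
  have hb : (0 : ℤ) < b := by exact_mod_cast b.pos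
  have hc : (0 : ℤ) < c := by exact_mod_cast c.pos
  constructor
  · intro s hs
    rw [coeff_mul] at hs
    obtain ⟨u, hu, h1⟩ := Finset.exists_ne_zero_of_sum_ne_zero hs
    obtain ⟨w, hw, h2⟩ := Finset.exists_ne_zero_of_sum_ne_zero h1
    split_ifs at h2 with h3
    · obtain ⟨p, q, h4⟩ := hx.1 u (mem_supp.1 hu)
      obtain ⟨p', q', h5⟩ := hy.1 w (mem_supp.1 hw)
      refine ⟨p + p', q + q', ?_⟩
      rw [← h3, h4, h5]
      ext <;> simp <;> ring
    · exact absurd rfl h2
  · obtain ⟨n, hn⟩ := hx.2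
    obtain ⟨n', hn'⟩ := hy.2
    have hu : UniqueAdd (supp x) (supp y) (-a) (-a') := by
      intro s t hs ht hst
      obtain ⟨p, q, h4⟩ := hx.1 s (mem_supp.1 hs)
      obtain ⟨p', q', h5⟩ := hy.1 t (mem_supp.1 ht)
      rw [h4, h5] at hst
      have e1 := congrArg Prod.fst hst
      have e2 := congrArg Prod.snd hst
      simp only [Prod.fst_add, Prod.snd_add, Prod.fst_neg, Prod.snd_neg] at e1 e2
      have e3 : (b : ℤ) * (p + p') = 0 := by linarith
      have e4 : (c : ℤ) * (q + q') = 0 := by linarith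
      have e5 : (p : ℤ) + p' = 0 := by
        rcases mul_eq_zero.1 e3 with h | h
        · omega
        · exact h
      have e6 : (q : ℤ) + q' = 0 := by
        rcases mul_eq_zero.1 e4 with h | h
        · omega
        · exact h
      have hp : p = 0 := by omega
      have hp' : p' = 0 := by omega
      have hq : q = 0 := by omega
      have hq' : q' = 0 := by omega
      constructor
      · rw [h4, hp, hq]; ext <;> simp
      · rw [h5, hp', hq']; ext <;> simp
    have h1 := coeff_mul_of_unique hu (mem_supp.2 (by rw [hn]; exact T_ne_zero _))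
      (mem_supp.2 (by rw [hn']; exact T_ne_zero _))
    refine ⟨n + n' + twist (-a) (-a'), ?_⟩
    rw [neg_add, h1, hn, hn', T_add, T_add]

theorem PtU.one {b c : ℕ+} : PtU b c 0 1 := by
  constructor
  · intro s hs
    rw [one_def, coeff_term] at hs
    split_ifs at hs with h
    · exact ⟨0, 0, by rw [← h]; simp; rfl⟩
    · exact absurd rfl hs
  · exact ⟨0, by rw [one_def, coeff_term]; simp⟩

theorem PtU.pow {b c : ℕ+} {a : ℤ × ℤ} {x : QTorus} (hx : PtU b c a x) (n : ℕ) :
    PtU b c (n • a) (x ^ n) := by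
  induction n with
  | zero => simpa using PtU.one
  | succ n ih => rw [pow_succ, succ_nsmul]; exact ih.mul hx

theorem PtU.mono {b c : ℕ+} (a : ℤ × ℤ) : PtU b c (-a) (mono a) := by
  constructor
  · intro s hs
    rw [QTorus.mono, coeff_term] at hs
    split_ifs at hs with h
    · exact ⟨0, 0, by rw [← h]; simp⟩
    · exact absurd rfl hs
  · exact ⟨0, by rw [QTorus.mono, coeff_term]; simp⟩

theorem PtU.baseX0 {b c : ℕ+} : PtU b c (0, 1) (baseX0 b) := by
  have hb := b.pos
  constructor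
  · intro s hs
    rw [Helper41.baseX0, coeff_add, QTorus.mono, QTorus.mono, coeff_term, coeff_term] at hs
    split_ifs at hs with h h' h'
    · exact ⟨0, 0, by rw [← h]; simp⟩
    · exact ⟨0, 0, by rw [← h]; simp⟩
    · exact ⟨1, 0, by rw [← h']; simp⟩
    · simp at hs
  · refine ⟨0, ?_⟩
    rw [Helper41.baseX0, coeff_add, QTorus.mono, QTorus.mono, coeff_term, coeff_term, if_pos (by simp),
      if_neg (by simp)]
    simp

theorem PtU.baseX3 {b c : ℕ+} : PtU b c (1, 0) (baseX3 c) := by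
  have hc := c.pos
  constructor
  · intro s hs
    rw [Helper41.baseX3, coeff_add, QTorus.mono, QTorus.mono, coeff_term, coeff_term] at hs
    split_ifs at hs with h h' h'
    · exact ⟨0, 0, by rw [← h]; simp⟩
    · exact ⟨0, 0, by rw [← h]; simp⟩
    · exact ⟨0, 1, by rw [← h']; simp⟩
    · simp at hs
  · refine ⟨0, ?_⟩
    rw [Helper41.baseX3, coeff_add, QTorus.mono, QTorus.mono, coeff_term, coeff_term, if_pos (by simp),
      if_neg (by simp)]
    simp

/-- The standard monomial `X₀^i X₁^j X₂^k X₃^l`. -/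
noncomputable def stdMono (b c : ℕ+) (i j k l : ℕ) : QTorus :=
  baseX0 b ^ i * QTorus.mono (1, 0) ^ j * QTorus.mono (0, 1) ^ k * baseX3 c ^ l

theorem ptU_stdMono (b c : ℕ+) (i j k l : ℕ) :
    PtU b c ((l : ℤ) - j, (i : ℤ) - k) (stdMono b c i j k l) := by
  have h := (((PtU.baseX0 (b := b) (c := c)).pow i).mul ((PtU.mono (1, 0)).pow j)).mul
    ((PtU.mono (0, 1)).pow k) |>.mul ((PtU.baseX3 (b := b) (c := c)).pow l)
  have e : ((l : ℤ) - j, (i : ℤ) - k) = i • ((0 : ℤ), (1 : ℤ)) + j • -((1 : ℤ), (0 : ℤ)) +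
      k • -((0 : ℤ), (1 : ℤ)) + l • ((1 : ℤ), (0 : ℤ)) := by
    ext <;> simp <;> ring
  rw [e]
  exact h

/-- The standard monomial pointed (up to a power of `v`) at `a`. -/
noncomputable def zed (b c : ℕ+) (a : ℤ × ℤ) : QTorus :=
  stdMono b c a.2.toNat (-a.1).toNat (-a.2).toNat a.1.toNat

theorem ptU_zed (b c : ℕ+) (a : ℤ × ℤ) : PtU b c a (zed b c a) := by
  have h := ptU_stdMono b c a.2.toNat (-a.1).toNat (-a.2).toNat a.1.toNat
  have e : ((a.1.toNat : ℤ) - (-a.1).toNat, (a.2.toNat : ℤ) - (-a.2).toNat) = a := by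
    ext <;> simp
  rw [e] at h
  exact h

theorem mem_stdSet_iff (b c : ℕ+) (x : QTorus) :
    x ∈ stdSet (baseX0 b) (QTorus.mono (1, 0)) (QTorus.mono (0, 1)) (baseX3 c) ↔
      ∃ a, x = zed b c a := by
  constructor
  · rintro ⟨i, j, k, l, h1, h2, rfl⟩
    refine ⟨((l : ℤ) - j, (i : ℤ) - k), ?_⟩
    unfold zed stdMono
    have e1 : ((l : ℤ) - j, (i : ℤ) - k).2.toNat = i := by simp; omega
    have e2 : (-((l : ℤ) - j, (i : ℤ) - k).1).toNat = j := by simp; omega
    have e3 : (-((l : ℤ) - j, (i : ℤ) - k).2).toNat = k := by simp; omega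
    have e4 : (((l : ℤ) - j, (i : ℤ) - k).1).toNat = l := by simp; omega
    rw [e1, e2, e3, e4]
  · rintro ⟨a, rfl⟩
    refine ⟨_, _, _, _, ?_, ?_, rfl⟩ <;> omega

end Pool.Agent.Helper41
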