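import Mathlib

/-!
The rank 2 quantum torus over the ring of integral Laurent polynomials in `v`.
-/

set_option autoImplicit false

open LaurentPolynomial

namespace Pool.Agent.Helper41

/-- The ground ring `ℤ[v, v⁻¹]`; the variable `v` is `T 1` and `v^n` is `T n`. -/
abbrev Lv : Type := LaurentPolynomial ℤ

/-- The exponent of `v` in the product `X^(a) X^(b) = v^(twist a b) X^(a+b)`. -/
def twist (a b : ℤ × ℤ) : ℤ := a.2 * b.1 - a.1 * b.2

theorem twist_add_left (a b c : ℤ × ℤ) : twist (a + b) c = twist a c + twist b c := by
  simp [twist]; ring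

theorem twist_add_right (a b c : ℤ × ℤ) : twist a (b + c) = twist a b + twist a c := by
  simp [twist]; ring

/-- The rank 2 quantum torus: the free `ℤ[v, v⁻¹]`-module on the bar-invariant monomials
`X^(a₁,a₂) = v^(a₁ a₂) X₁^a₁ X₂^a₂`. -/
def QTorus : Type := (ℤ × ℤ) →₀ Lv

noncomputable instance : AddCommGroup QTorus := (inferInstance : AddCommGroup ((ℤ × ℤ) →₀ Lv))
noncomputable instance : Module Lv QTorus := (inferInstance : Module Lv ((ℤ × ℤ) →₀ Lv))

namespace QTorus

/-- An element of the quantum torus seen as a finitely supported function (its coefficients). -/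
def toFinsupp (x : QTorus) : (ℤ × ℤ) →₀ Lv := x

/-- The coefficient of `X^(a)` in an element of the quantum torus. -/
noncomputable def coeff (x : QTorus) (a : ℤ × ℤ) : Lv := toFinsupp x a

/-- The element `r X^(a)`. -/
noncomputable def term (a : ℤ × ℤ) (r : Lv) : QTorus := (Finsupp.single a r : (ℤ × ℤ) →₀ Lv)

/-- The bar-invariant monomial `X^(a) = v^(a₁ a₂) X₁^a₁ X₂^a₂`. -/
noncomputable def mono (a : ℤ × ℤ) : QTorus := term a 1

/-- Multiplication of the quantum torus: the `ℤ[v, v⁻¹]`-bilinear product with
`X^(a) X^(b) = v^(a₂ b₁ - a₁ b₂) X^(a+b)`. -/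
noncomputable def mul (x y : QTorus) : QTorus :=
  (toFinsupp x).sum fun a r => (toFinsupp y).sum fun b s => term (a + b) (r * s * T (twist a b))

noncomputable instance : Mul QTorus := ⟨mul⟩
noncomputable instance : One QTorus := ⟨mono 0⟩

theorem mul_def (x y : QTorus) : x * y =
    (toFinsupp x).sum fun a r => (toFinsupp y).sum fun b s => term (a + b) (r * s * T (twist a b)) :=
  rfl
theorem one_def : (1 : QTorus) = term 0 1 := rfl

theorem term_zero (a : ℤ × ℤ) : term a 0 = 0 := Finsupp.single_zero a
theorem term_add (a : ℤ × ℤ) (r s : Lv) : term a (r + s) = term a r + term a s :=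
  Finsupp.single_add a r s

@[elab_as_elim]
theorem induction {P : QTorus → Prop} (x : QTorus) (h0 : P 0) (hadd : ∀ x y, P x → P y → P (x + y))
    (hterm : ∀ a r, P (term a r)) : P x :=
  Finsupp.induction_linear (motive := P) x h0 hadd hterm

theorem zero_mul' (x : QTorus) : 0 * x = 0 := by
  rw [mul_def]
  exact Finsupp.sum_zero_index (h := fun a r => (toFinsupp x).sum fun b s => term (a + b) (r * s * T (twist a b)))
theorem mul_zero' (x : QTorus) : x * 0 = 0 := by
  rw [mul_def]
  exact Finsupp.sum_fun_zero _ |>.trans rfl

theorem add_mul' (x y z : QTorus) : (x + y) * z = x * z + y * z := by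
  simp only [mul_def]
  refine Finsupp.sum_add_index' (f := toFinsupp x) (g := toFinsupp y) ?_ ?_
  · intro a
    simp [term_zero]
  · intro a r s
    rw [← Finsupp.sum_add]
    simp [add_mul, term_add]

theorem mul_add' (x y z : QTorus) : x * (y + z) = x * y + x * z := by
  simp only [mul_def]
  rw [← Finsupp.sum_add]
  refine Finsupp.sum_congr fun a _ => ?_
  refine Finsupp.sum_add_index' (f := toFinsupp y) (g := toFinsupp z) ?_ ?_
  · intro a
    simp [term_zero]
  · intro a r s
    simp [mul_add, add_mul, term_add]

theorem term_mul_term (a b : ℤ × ℤ) (r s : Lv) :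
    term a r * term b s = term (a + b) (r * s * T (twist a b)) := by
  rw [mul_def]
  refine (Finsupp.sum_single_index (a := a) (b := r) ?_).trans ?_
  · simp [term_zero]
  · refine (Finsupp.sum_single_index (a := b) (b := s) ?_)
    simp [term_zero]

theorem mul_assoc' (x y z : QTorus) : x * y * z = x * (y * z) := by
  induction x using induction with
  | h0 => simp [zero_mul']
  | hadd x x' hx hx' => simp [add_mul', hx, hx']
  | hterm a r =>
    induction y using induction with
    | h0 => simp [zero_mul', mul_zero']
    | hadd y y' hy hy' => simp [add_mul', mul_add', hy, hy']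
    | hterm b s =>
      induction z using induction with
      | h0 => simp [mul_zero']
      | hadd z z' hz hz' => simp [mul_add', hz, hz']
      | hterm c t =>
        simp only [term_mul_term, twist_add_left, twist_add_right, T_add, add_assoc]
        congr 1
        ring

theorem one_mul' (x : QTorus) : 1 * x = x := by
  induction x using induction with
  | h0 => simp [mul_zero']
  | hadd x x' hx hx' => simp [mul_add', hx, hx']
  | hterm a r => simp [one_def, term_mul_term, twist]

theorem mul_one' (x : QTorus) : x * 1 = x := by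
  induction x using induction with
  | h0 => simp [zero_mul']
  | hadd x x' hx hx' => simp [add_mul', hx, hx']
  | hterm a r => simp [one_def, term_mul_term, twist]

noncomputable instance : Ring QTorus :=
  { (inferInstance : AddCommGroup QTorus) with
    mul := (· * ·)
    one := 1
    left_distrib := mul_add'
    right_distrib := add_mul'
    zero_mul := zero_mul'
    mul_zero := mul_zero'
    mul_assoc := mul_assoc'
    one_mul := one_mul'
    mul_one := mul_one' }

theorem smul_term (r s : Lv) (a : ℤ × ℤ) : r • term a s = term a (r * s) := 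
  Finsupp.smul_single r a s

theorem smul_mul' (r : Lv) (x y : QTorus) : (r • x) * y = r • (x * y) := by
  induction x using induction with
  | h0 => simp 
  | hadd x x' hx hx' => simp [add_mul, smul_add, hx, hx']
  | hterm a s =>
    induction y using induction with
    | h0 => simp
    | hadd y y' hy hy' => simp [mul_add, smul_add, hy, hy']
    | hterm b t => simp [smul_term, term_mul_term, mul_assoc]

theorem mul_smul' (r : Lv) (x y : QTorus) : x * (r • y) = r • (x * y) := by
  induction x using induction with
  | h0 => simp 
  | hadd x x' hx hx' => simp [add_mul, smul_add, hx, hx']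
  | hterm a s =>
    induction y using induction with
    | h0 => simp
    | hadd y y' hy hy' => simp [mul_add, smul_add, hy, hy']
    | hterm b t =>
      simp only [smul_term, term_mul_term]
      congr 1
      ring

noncomputable instance : Algebra Lv QTorus := Algebra.ofModule smul_mul' mul_smul'

@[simp] theorem coeff_add (x y : QTorus) (a : ℤ × ℤ) : coeff (x + y) a = coeff x a + coeff y a := rfl
@[simp] theorem coeff_zero (a : ℤ × ℤ) : coeff (0 : QTorus) a = 0 := rfl
@[simp] theorem coeff_neg (x : QTorus) (a : ℤ × ℤ) : coeff (-x) a = - coeff x a := rfl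
@[simp] theorem coeff_sub (x y : QTorus) (a : ℤ × ℤ) : coeff (x - y) a = coeff x a - coeff y a := rfl
@[simp] theorem coeff_smul (r : Lv) (x : QTorus) (a : ℤ × ℤ) : coeff (r • x) a = r * coeff x a := rfl
theorem coeff_term (a b : ℤ × ℤ) (r : Lv) : coeff (term a r) b = if a = b then r else 0 := by
  classical
  exact Finsupp.single_apply

@[ext] theorem ext {x y : QTorus} (h : ∀ a, coeff x a = coeff y a) : x = y := Finsupp.ext h

/-- The (finite) set of exponents `a` such that `X^(a)` occurs in `x`. -/
noncomputable def supp (x : QTorus) : Finset (ℤ × ℤ) := (toFinsupp x).support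

theorem mem_supp {x : QTorus} {a : ℤ × ℤ} : a ∈ supp x ↔ coeff x a ≠ 0 := Finsupp.mem_support_iff

theorem eq_sum_term (x : QTorus) : x = ∑ a ∈ supp x, term a (coeff x a) :=
  (Finsupp.sum_single (toFinsupp x)).symm

theorem coeff_sum {ι : Type*} (s : Finset ι) (f : ι → QTorus) (a : ℤ × ℤ) :
    coeff (∑ i ∈ s, f i) a = ∑ i ∈ s, coeff (f i) a := Finsupp.finsetSum_apply s f a

theorem coeff_mul (x y : QTorus) (c : ℤ × ℤ) :
    coeff (x * y) c = ∑ a ∈ supp x, ∑ b ∈ supp y,
      if a + b = c then coeff x a * coeff y b * T (twist a b) else 0 := by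
  conv_lhs => rw [eq_sum_term x, eq_sum_term y]
  rw [Finset.sum_mul_sum, coeff_sum]
  refine Finset.sum_congr rfl fun a _ => ?_
  rw [coeff_sum]
  refine Finset.sum_congr rfl fun b _ => ?_
  rw [term_mul_term, coeff_term]

theorem coeff_mul_of_unique {x y : QTorus} {a b : ℤ × ℤ} (h : UniqueAdd (supp x) (supp y) a b)
    (ha : a ∈ supp x) (hb : b ∈ supp y) :
    coeff (x * y) (a + b) = coeff x a * coeff y b * T (twist a b) := by
  rw [coeff_mul, Finset.sum_eq_single_of_mem a ha, Finset.sum_eq_single_of_mem b hb]
  · simp
  · intro b' hb' hne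
    rw [if_neg]
    intro h'
    exact hne (h ha hb' h').2
  · intro a' ha' hne
    refine Finset.sum_eq_zero fun b' hb' => ?_
    rw [if_neg]
    intro h'
    exact hne (h ha' hb' h').1

theorem T_ne_zero (n : ℤ) : (T n : Lv) ≠ 0 := (isUnit_T n).ne_zero

theorem supp_nonempty {x : QTorus} (hx : x ≠ 0) : (supp x).Nonempty := by
  by_contra h
  apply hx
  refine ext fun a => ?_
  by_contra h'
  exact h ⟨a, mem_supp.2 h'⟩

instance : NoZeroDivisors QTorus where
  eq_zero_or_eq_zero_of_mul_eq_zero := by
    intro x y hxy
    by_contra h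
    push Not at h
    obtain ⟨a, ha, b, hb, hu⟩ := UniqueSums.uniqueAdd_of_nonempty (supp_nonempty h.1) (supp_nonempty h.2)
    have h1 := coeff_mul_of_unique hu ha hb
    rw [hxy, coeff_zero] at h1
    exact mul_ne_zero (mul_ne_zero (mem_supp.1 ha) (mem_supp.1 hb)) (T_ne_zero _) h1.symm

instance : Nontrivial QTorus := ⟨0, 1, by
  intro h
  have := congrArg (fun x => coeff x 0) h
  simp [one_def, coeff_term] at this⟩

theorem smul_eq_zero' {r : Lv} {x : QTorus} (h : r • x = 0) : r = 0 ∨ x = 0 := by
  by_contra h'
  push Not at h'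
  obtain ⟨a, ha⟩ := supp_nonempty h'.2
  have := congrArg (fun x => coeff x a) h
  simp only [coeff_smul, coeff_zero] at this
  exact mul_ne_zero h'.1 (mem_supp.1 ha) this

/-- The bar involution: the `ℤ`-linear map with `v ↦ v⁻¹` fixing every `X^(a)`. -/
noncomputable def bar (x : QTorus) : QTorus :=
  (Finsupp.mapRange (fun r : Lv => invert r) (map_zero _) (toFinsupp x) : (ℤ × ℤ) →₀ Lv)

@[simp] theorem coeff_bar (x : QTorus) (a : ℤ × ℤ) : coeff (bar x) a = invert (coeff x a) :=
  Finsupp.mapRange_apply (hf := map_zero _) ..

theorem bar_add (x y : QTorus) : bar (x + y) = bar x + bar y := by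
  ext a; simp

theorem bar_zero : bar 0 = 0 := by
  ext a; simp

theorem bar_term (a : ℤ × ℤ) (r : Lv) : bar (term a r) = term a (invert r) := by
  ext b; simp only [coeff_bar, coeff_term]; split_ifs <;> simp

theorem twist_swap (a b : ℤ × ℤ) : twist b a = - twist a b := by simp [twist]; ring

/-- The bar involution is an anti-automorphism. -/
theorem bar_mul (x y : QTorus) : bar (x * y) = bar y * bar x := by
  induction x using induction with
  | h0 => simp [bar_zero]
  | hadd x x' hx hx' => simp [add_mul, mul_add, bar_add, hx, hx']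
  | hterm a s =>
    induction y using induction with
    | h0 => simp [bar_zero]
    | hadd y y' hy hy' => simp [add_mul, mul_add, bar_add, hy, hy']
    | hterm b t =>
      simp only [bar_term, term_mul_term, map_mul, invert_T, twist_swap a b, add_comm b a]
      congr 1
      ring

end QTorus
end Pool.Agent.Helper41
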