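import Pool.Agent.Helper41.Step

/-!
Two-sided sequences of cluster variables.
-/

set_option autoImplicit false
set_option linter.unusedSectionVars false

open LaurentPolynomial

namespace Pool.Agent.Helper41

section general
variable {A : Type} [Ring A] [Algebra Lv A]

open MulOpposite in
theorem Quad.op {b c : ℕ} {x0 x1 x2 x3 : A} (h : Quad b c x0 x1 x2 x3) :
    Quad c b (op x3) (op x2) (op x1) (op x0) where
  r02 := by rw [← op_mul, h.r13]; simp
  r02' := by rw [← op_mul, h.r13']; simp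
  r13 := by rw [← op_mul, h.r02]; simp
  r13' := by rw [← op_mul, h.r02']; simp
  q01 := by rw [← op_mul, h.q23, ← op_mul]; simp
  q12 := by rw [← op_mul, h.q12, ← op_mul]; simp
  q23 := by rw [← op_mul, h.q01, ← op_mul]; simp
  n0 := by simpa using h.n3
  n1 := by simpa using h.n2
  n2 := by simpa using h.n1
  n3 := by simpa using h.n0

open MulOpposite in
theorem Quad.unop {b c : ℕ} {x0 x1 x2 x3 : Aᵐᵒᵖ} (h : Quad b c x0 x1 x2 x3) :
    Quad c b (unop x3) (unop x2) (unop x1) (unop x0) where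
  r02 := by rw [← unop_mul, h.r13]; simp
  r02' := by rw [← unop_mul, h.r13']; simp
  r13 := by rw [← unop_mul, h.r02]; simp
  r13' := by rw [← unop_mul, h.r02']; simp
  q01 := by rw [← unop_mul, h.q23, ← unop_mul]; simp
  q12 := by rw [← unop_mul, h.q12, ← unop_mul]; simp
  q23 := by rw [← unop_mul, h.q01, ← unop_mul]; simp
  n0 := by simpa using h.n3
  n1 := by simpa using h.n2
  n2 := by simpa using h.n1
  n3 := by simpa using h.n0

/-- Quadruples of consecutive cluster variables, going up. -/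
noncomputable def upState (b c : ℕ) (x0 x1 x2 x3 : A) : ℕ → A × A × A × A
  | 0 => (x0, x1, x2, x3)
  | n + 1 =>
    let y := upState b c x0 x1 x2 x3 n
    (y.2.1, y.2.2.1, y.2.2.2, 
      if Even n then next b c y.1 y.2.2.1 y.2.2.2 else next c b y.1 y.2.2.1 y.2.2.2)

/-- The sequence of cluster variables, going up. -/
noncomputable def up (b c : ℕ) (x0 x1 x2 x3 : A) (n : ℕ) : A := (upState b c x0 x1 x2 x3 n).1

theorem upState_eq (b c : ℕ) (x0 x1 x2 x3 : A) (n : ℕ) :
    upState b c x0 x1 x2 x3 n = (up b c x0 x1 x2 x3 n, up b c x0 x1 x2 x3 (n + 1),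
      up b c x0 x1 x2 x3 (n + 2), up b c x0 x1 x2 x3 (n + 3)) := rfl

theorem up_add_four (b c : ℕ) (x0 x1 x2 x3 : A) (n : ℕ) :
    up b c x0 x1 x2 x3 (n + 4) = if Even n then
      next b c (up b c x0 x1 x2 x3 n) (up b c x0 x1 x2 x3 (n + 2)) (up b c x0 x1 x2 x3 (n + 3)) else
      next c b (up b c x0 x1 x2 x3 n) (up b c x0 x1 x2 x3 (n + 2)) (up b c x0 x1 x2 x3 (n + 3)) :=
  rfl

variable [NoZeroDivisors A]

theorem up_quad (hsmul : ∀ (r : Lv) (x : A), r • x = 0 → r = 0 ∨ x = 0)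
    {b c : ℕ} (hb : 0 < b) (hc : 0 < c) {x0 x1 x2 x3 : A}
    (h : Quad b c x0 x1 x2 x3) (n : ℕ) :
    (Even n → Quad b c (up b c x0 x1 x2 x3 n) (up b c x0 x1 x2 x3 (n + 1))
      (up b c x0 x1 x2 x3 (n + 2)) (up b c x0 x1 x2 x3 (n + 3))) ∧
    (¬ Even n → Quad c b (up b c x0 x1 x2 x3 n) (up b c x0 x1 x2 x3 (n + 1))
      (up b c x0 x1 x2 x3 (n + 2)) (up b c x0 x1 x2 x3 (n + 3))) := by
  induction n with
  | zero => exact ⟨fun _ => h, fun h' => absurd (by simp) h'⟩
  | succ n ih =>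
    constructor
    · intro hn
      rw [Nat.even_add_one] at hn
      have h1 := (ih.2 hn).step hsmul hc hb
      rw [show n + 1 + 3 = n + 4 from rfl, up_add_four, if_neg hn]
      exact h1
    · intro hn
      rw [Nat.even_add_one, not_not] at hn
      have h1 := (ih.1 hn).step hsmul hb hc
      rw [show n + 1 + 3 = n + 4 from rfl, up_add_four, if_pos hn]
      exact h1

theorem next_mem {b c : ℕ} {S : Subalgebra Lv A} {x0 x2 x3 : A} (h0 : x0 ∈ S) (h2 : x2 ∈ S)
    (h3 : x3 ∈ S) : next b c x0 x2 x3 ∈ S := by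
  unfold next
  refine S.sub_mem (S.smul_mem (S.mul_mem h0 (S.pow_mem h3 _)) _) ?_
  exact Algebra.adjoin_le (S := S) (Set.singleton_subset_iff.2 h2)
    (Polynomial.aeval_mem_adjoin_singleton Lv x2)

theorem up_mem {b c : ℕ} {S : Subalgebra Lv A} {x0 x1 x2 x3 : A} (h0 : x0 ∈ S) (h1 : x1 ∈ S)
    (h2 : x2 ∈ S) (h3 : x3 ∈ S) (n : ℕ) : up b c x0 x1 x2 x3 n ∈ S := by
  induction n using Nat.strong_induction_on with
  | _ n ih =>
    match n with
    | 0 => exact h0
    | 1 => exact h1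
    | 2 => exact h2
    | 3 => exact h3
    | n + 4 =>
      rw [up_add_four]
      split_ifs
      · exact next_mem (ih n (by omega)) (ih (n + 2) (by omega)) (ih (n + 3) (by omega))
      · exact next_mem (ih n (by omega)) (ih (n + 2) (by omega)) (ih (n + 3) (by omega))

open MulOpposite

/-- The two-sided sequence of cluster variables through `x0, x1, x2, x3`. -/
noncomputable def seq (b c : ℕ) (x0 x1 x2 x3 : A) (m : ℤ) : A :=
  if 0 ≤ m then up b c x0 x1 x2 x3 m.toNat
  else unop (up c b (op x3) (op x2) (op x1) (op x0) (3 - m).toNat)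

theorem seq_nonneg (b c : ℕ) (x0 x1 x2 x3 : A) (n : ℕ) :
    seq b c x0 x1 x2 x3 (n : ℤ) = up b c x0 x1 x2 x3 n := by
  simp [seq]

theorem seq_le_three (b c : ℕ) (x0 x1 x2 x3 : A) (n : ℕ) :
    seq b c x0 x1 x2 x3 (3 - (n : ℤ)) = unop (up c b (op x3) (op x2) (op x1) (op x0) n) := by
  by_cases h : (0 : ℤ) ≤ 3 - n
  · have : n ≤ 3 := by omega
    interval_cases n <;> rfl
  · rw [seq, if_neg h]
    congr 2
    omega

instance : NoZeroDivisors Aᵐᵒᵖ := inferInstance

theorem seq_quad (hsmul : ∀ (r : Lv) (x : A), r • x = 0 → r = 0 ∨ x = 0)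
    {b c : ℕ} (hb : 0 < b) (hc : 0 < c) {x0 x1 x2 x3 : A}
    (h : Quad b c x0 x1 x2 x3) (m : ℤ) :
    (Even m → Quad b c (seq b c x0 x1 x2 x3 m) (seq b c x0 x1 x2 x3 (m + 1))
      (seq b c x0 x1 x2 x3 (m + 2)) (seq b c x0 x1 x2 x3 (m + 3))) ∧
    (¬ Even m → Quad c b (seq b c x0 x1 x2 x3 m) (seq b c x0 x1 x2 x3 (m + 1))
      (seq b c x0 x1 x2 x3 (m + 2)) (seq b c x0 x1 x2 x3 (m + 3))) := by
  rcases le_or_gt 0 m with hm | hm
  · obtain ⟨n, rfl⟩ := Int.eq_ofNat_of_zero_le hm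
    have h1 := up_quad hsmul hb hc h n
    have e1 : ((n : ℤ) + 1) = ((n + 1 : ℕ) : ℤ) := by push_cast; ring
    have e2 : ((n : ℤ) + 2) = ((n + 2 : ℕ) : ℤ) := by push_cast; ring
    have e3 : ((n : ℤ) + 3) = ((n + 3 : ℕ) : ℤ) := by push_cast; ring
    rw [e1, e2, e3, seq_nonneg, seq_nonneg, seq_nonneg, seq_nonneg, Int.even_coe_nat]
    exact h1
  · obtain ⟨n, hn⟩ := Int.eq_ofNat_of_zero_le (a := -m) (by omega)
    have hsmul' : ∀ (r : Lv) (x : Aᵐᵒᵖ), r • x = 0 → r = 0 ∨ x = 0 := by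
      intro r x hx
      have := hsmul r (unop x) (by simpa using congrArg unop hx)
      simpa using this
    have h1 := up_quad hsmul' hc hb h.op n
    have e0 : m = 3 - ((n + 3 : ℕ) : ℤ) := by push_cast; omega
    have e1 : m + 1 = 3 - ((n + 2 : ℕ) : ℤ) := by push_cast; omega
    have e2 : m + 2 = 3 - ((n + 1 : ℕ) : ℤ) := by push_cast; omega
    have e3 : m + 3 = 3 - ((n : ℕ) : ℤ) := by omega
    have hev : Even m ↔ Even n := by
      have : m = -(n : ℤ) := by omega
      rw [this, even_neg, Int.even_coe_nat]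
    rw [hev, e1, e2, e3]
    rw [show seq b c x0 x1 x2 x3 m = seq b c x0 x1 x2 x3 (3 - ((n + 3 : ℕ) : ℤ)) by rw [← e0]]
    rw [seq_le_three, seq_le_three, seq_le_three, seq_le_three]
    exact ⟨fun h' => (h1.1 h').unop, fun h' => (h1.2 h').unop⟩

theorem seq_mem {b c : ℕ} {x0 x1 x2 x3 : A} (m : ℤ) :
    seq b c x0 x1 x2 x3 m ∈ Algebra.adjoin Lv ({x0, x1, x2, x3} : Set A) := by
  unfold seq
  split_ifs with h
  · exact up_mem (Algebra.subset_adjoin (by simp)) (Algebra.subset_adjoin (by simp))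
      (Algebra.subset_adjoin (by simp)) (Algebra.subset_adjoin (by simp)) _
  · have := up_mem (A := Aᵐᵒᵖ) (b := c) (c := b)
      (S := (Algebra.adjoin Lv ({x0, x1, x2, x3} : Set A)).op)
      (x0 := op x3) (x1 := op x2) (x2 := op x1) (x3 := op x0)
      (by simpa using (Algebra.subset_adjoin (by simp)))
      (by simpa using (Algebra.subset_adjoin (by simp)))
      (by simpa using (Algebra.subset_adjoin (by simp)))
      (by simpa using (Algebra.subset_adjoin (by simp))) (3 - m).toNat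
    simpa using this

end general

end Pool.Agent.Helper41
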