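import Pool.Agent.Helper41.Seq

/-!
Standard monomials span the algebra generated by four consecutive cluster variables.
-/

set_option autoImplicit false
set_option linter.unusedSectionVars false

open LaurentPolynomial

namespace Pool.Agent.Helper41

section general
variable {A : Type} [Ring A] [Algebra Lv A]

/-- Standard monomials in four consecutive cluster variables. -/
def stdSet (x0 x1 x2 x3 : A) : Set A :=
  {y | ∃ i j k l : ℕ, (i = 0 ∨ k = 0) ∧ (j = 0 ∨ l = 0) ∧ y = x0 ^ i * x1 ^ j * x2 ^ k * x3 ^ l}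

theorem all_mem_span_std {b c : ℕ} {x0 x1 x2 x3 : A} (h : Quad b c x0 x1 x2 x3) (N : ℕ) :
    ∀ i j k l : ℕ, i + l ≤ N →
      x0 ^ i * x1 ^ j * x2 ^ k * x3 ^ l ∈ Submodule.span Lv (stdSet x0 x1 x2 x3) := by
  induction N with
  | zero =>
    intro i j k l hN
    exact Submodule.subset_span ⟨i, j, k, l, Or.inl (by omega), Or.inr (by omega), rfl⟩
  | succ N ih =>
    intro i j k l hN
    by_cases h1 : i = 0 ∨ k = 0
    · by_cases h2 : j = 0 ∨ l = 0
      · exact Submodule.subset_span ⟨i, j, k, l, h1, h2, rfl⟩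
      · push Not at h2
        obtain ⟨j', rfl⟩ := Nat.exists_eq_succ_of_ne_zero h2.1
        obtain ⟨l', rfl⟩ := Nat.exists_eq_succ_of_ne_zero h2.2
        have e1 : x0 ^ i * x1 ^ (j' + 1) * x2 ^ k * x3 ^ (l' + 1) =
            x0 ^ i * x1 ^ j' * (x1 ^ 1 * x2 ^ k) * x3 * x3 ^ l' := by
          rw [pow_succ, pow_succ', pow_one]; simp only [mul_assoc]
        have e2 : x1 ^ 1 * x2 ^ k = (T (-(2 * k * 1 : ℤ)) : Lv) • (x2 ^ k * x1 ^ 1) := by
          have := qc_pow' h.q12 k 1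
          simpa using this
        have e3 : x0 ^ i * x1 ^ j' * (x1 ^ 1 * x2 ^ k) * x3 * x3 ^ l' =
            (T (-(2 * k * 1 : ℤ)) : Lv) • ((T (-(c : ℤ)) : Lv) • (x0 ^ i * x1 ^ j' * x2 ^ (k + c) * x3 ^ l')
              + x0 ^ i * x1 ^ j' * x2 ^ k * x3 ^ l') := by
          rw [e2, mul_smul_comm, smul_mul_assoc, smul_mul_assoc]
          congr 1
          have : x0 ^ i * x1 ^ j' * (x2 ^ k * x1 ^ 1) * x3 * x3 ^ l' =
            x0 ^ i * x1 ^ j' * x2 ^ k * (x1 * x3) * x3 ^ l' := by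
            rw [pow_one]; simp only [mul_assoc]
          rw [this, h.r13', mul_add, add_mul, mul_smul_comm, smul_mul_assoc, pow_add]
          simp only [mul_assoc, mul_one]
        rw [e1, e3]
        exact Submodule.smul_mem _ _ (Submodule.add_mem _
          (Submodule.smul_mem _ _ (ih _ _ _ _ (by omega))) (ih _ _ _ _ (by omega)))
    · push Not at h1
      obtain ⟨i', rfl⟩ := Nat.exists_eq_succ_of_ne_zero h1.1
      obtain ⟨k', rfl⟩ := Nat.exists_eq_succ_of_ne_zero h1.2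
      have e1 : x0 ^ (i' + 1) * x1 ^ j * x2 ^ (k' + 1) * x3 ^ l =
          x0 ^ i' * (x0 ^ 1 * x1 ^ j) * x2 * x2 ^ k' * x3 ^ l := by
        rw [pow_succ, pow_succ', pow_one]; simp only [mul_assoc]
      have e2 : x0 ^ 1 * x1 ^ j = (T (-(2 * j * 1 : ℤ)) : Lv) • (x1 ^ j * x0 ^ 1) := by
        have := qc_pow' h.q01 j 1
        simpa using this
      have e3 : x0 ^ i' * (x0 ^ 1 * x1 ^ j) * x2 * x2 ^ k' * x3 ^ l =
          (T (-(2 * j * 1 : ℤ)) : Lv) • ((T (-(b : ℤ)) : Lv) • (x0 ^ i' * x1 ^ (j + b) * x2 ^ k' * x3 ^ l)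
            + x0 ^ i' * x1 ^ j * x2 ^ k' * x3 ^ l) := by
        rw [e2, mul_smul_comm, smul_mul_assoc, smul_mul_assoc, smul_mul_assoc]
        congr 1
        have : x0 ^ i' * (x1 ^ j * x0 ^ 1) * x2 * x2 ^ k' * x3 ^ l =
          x0 ^ i' * x1 ^ j * (x0 * x2) * x2 ^ k' * x3 ^ l := by
          rw [pow_one]; simp only [mul_assoc]
        rw [this, h.r02', mul_add, add_mul, add_mul, mul_smul_comm, smul_mul_assoc, smul_mul_assoc,
          pow_add]
        simp only [mul_assoc, mul_one]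
      rw [e1, e3]
      exact Submodule.smul_mem _ _ (Submodule.add_mem _
        (Submodule.smul_mem _ _ (ih _ _ _ _ (by omega))) (ih _ _ _ _ (by omega)))

/-- A submodule containing the generators of a module is closed under right multiplication. -/
theorem span_mul_mem {S : Set A} {g : A} {W : Submodule Lv A} (h : ∀ x ∈ S, x * g ∈ W) {x : A}
    (hx : x ∈ Submodule.span Lv S) : x * g ∈ W := by
  induction hx using Submodule.span_induction with
  | mem x hx => exact h x hx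
  | zero => simp
  | add x y _ _ hx hy => rw [add_mul]; exact W.add_mem hx hy
  | smul r x _ hx => rw [smul_mul_assoc]; exact W.smul_mem _ hx

section
variable {b c : ℕ} {x0 x1 x2 x3 : A}

theorem mem_span_std (h : Quad b c x0 x1 x2 x3) (i j k l : ℕ) :
    x0 ^ i * x1 ^ j * x2 ^ k * x3 ^ l ∈ Submodule.span Lv (stdSet x0 x1 x2 x3) :=
  all_mem_span_std h (i + l) i j k l le_rfl

theorem mul_x3 (h : Quad b c x0 x1 x2 x3) {x : A}
    (hx : x ∈ Submodule.span Lv (stdSet x0 x1 x2 x3)) :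
    x * x3 ∈ Submodule.span Lv (stdSet x0 x1 x2 x3) := by
  refine span_mul_mem ?_ hx
  rintro _ ⟨i, j, k, l, -, -, rfl⟩
  rw [mul_assoc, ← pow_succ]
  exact mem_span_std h i j k (l + 1)

theorem mul_x2 (h : Quad b c x0 x1 x2 x3) {x : A}
    (hx : x ∈ Submodule.span Lv (stdSet x0 x1 x2 x3)) :
    x * x2 ∈ Submodule.span Lv (stdSet x0 x1 x2 x3) := by
  refine span_mul_mem ?_ hx
  rintro _ ⟨i, j, k, l, -, -, rfl⟩
  have e : x3 ^ l * x2 ^ 1 = (T (2 * l * 1 : ℤ) : Lv) • (x2 ^ 1 * x3 ^ l) := by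
    simpa using qc_pow h.q23 l 1
  have : x0 ^ i * x1 ^ j * x2 ^ k * x3 ^ l * x2 =
      (T (2 * l * 1 : ℤ) : Lv) • (x0 ^ i * x1 ^ j * x2 ^ (k + 1) * x3 ^ l) := by
    rw [mul_assoc _ (x3 ^ l), ← pow_one x2, e, mul_smul_comm, pow_one, pow_succ]
    simp only [mul_assoc]
  rw [this]
  exact Submodule.smul_mem _ _ (mem_span_std h i j (k + 1) l)

theorem mul_x1 (h : Quad b c x0 x1 x2 x3) {x : A}
    (hx : x ∈ Submodule.span Lv (stdSet x0 x1 x2 x3)) :
    x * x1 ∈ Submodule.span Lv (stdSet x0 x1 x2 x3) := by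
  refine span_mul_mem ?_ hx
  rintro _ ⟨i, j, k, l, -, -, rfl⟩
  rcases l with _ | l
  · have e : x2 ^ k * x1 ^ 1 = (T (2 * k * 1 : ℤ) : Lv) • (x1 ^ 1 * x2 ^ k) := by
      simpa using qc_pow h.q12 k 1
    have : x0 ^ i * x1 ^ j * x2 ^ k * x3 ^ 0 * x1 =
        (T (2 * k * 1 : ℤ) : Lv) • (x0 ^ i * x1 ^ (j + 1) * x2 ^ k * x3 ^ 0) := by
      rw [pow_zero, mul_one, mul_assoc _ (x2 ^ k), ← pow_one x1, e, mul_smul_comm,
        pow_one, pow_succ]
      simp only [mul_assoc, mul_one]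
    rw [this]
    exact Submodule.smul_mem _ _ (mem_span_std h i (j + 1) k 0)
  · have e : x3 ^ l * x2 ^ c = (T (2 * l * c : ℤ) : Lv) • (x2 ^ c * x3 ^ l) := by
      simpa using qc_pow h.q23 l c
    have : x0 ^ i * x1 ^ j * x2 ^ k * x3 ^ (l + 1) * x1 =
        (T (c : ℤ) : Lv) • ((T (2 * l * c : ℤ) : Lv) • (x0 ^ i * x1 ^ j * x2 ^ (k + c) * x3 ^ l))
          + x0 ^ i * x1 ^ j * x2 ^ k * x3 ^ l := by
      rw [pow_succ, mul_assoc _ (x3 ^ l * x3), mul_assoc (x3 ^ l), h.r13, mul_add, mul_add,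
        mul_smul_comm, e, mul_one, pow_add, mul_smul_comm, mul_smul_comm]
      simp only [mul_assoc]
    rw [this]
    exact Submodule.add_mem _ (Submodule.smul_mem _ _ (Submodule.smul_mem _ _ (mem_span_std h _ _ _ _)))
      (mem_span_std h _ _ _ _)

theorem mul_x1_pow (h : Quad b c x0 x1 x2 x3) (n : ℕ) {x : A}
    (hx : x ∈ Submodule.span Lv (stdSet x0 x1 x2 x3)) :
    x * x1 ^ n ∈ Submodule.span Lv (stdSet x0 x1 x2 x3) := by
  induction n with
  | zero => simpa using hx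
  | succ n ih => rw [pow_succ, ← mul_assoc]; exact mul_x1 h ih

theorem mul_x2_pow (h : Quad b c x0 x1 x2 x3) (n : ℕ) {x : A}
    (hx : x ∈ Submodule.span Lv (stdSet x0 x1 x2 x3)) :
    x * x2 ^ n ∈ Submodule.span Lv (stdSet x0 x1 x2 x3) := by
  induction n with
  | zero => simpa using hx
  | succ n ih => rw [pow_succ, ← mul_assoc]; exact mul_x2 h ih

theorem mul_x0 (h : Quad b c x0 x1 x2 x3) {κ : Lv}
    (h03 : x3 * x0 = (T (-2) : Lv) • (x0 * x3) + κ • (x1 ^ (b - 1) * x2 ^ (c - 1))) {x : A}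
    (hx : x ∈ Submodule.span Lv (stdSet x0 x1 x2 x3)) :
    x * x0 ∈ Submodule.span Lv (stdSet x0 x1 x2 x3) := by
  refine span_mul_mem ?_ hx
  rintro _ ⟨i, j, k, l, -, -, rfl⟩
  induction l with
  | zero =>
    rw [pow_zero, mul_one]
    rcases k with _ | k
    · have e : x1 ^ j * x0 ^ 1 = (T (2 * j * 1 : ℤ) : Lv) • (x0 ^ 1 * x1 ^ j) := by
        simpa using qc_pow h.q01 j 1
      have : x0 ^ i * x1 ^ j * x2 ^ 0 * x0 =
          (T (2 * j * 1 : ℤ) : Lv) • (x0 ^ (i + 1) * x1 ^ j * x2 ^ 0 * x3 ^ 0) := by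
        rw [pow_zero, pow_zero, mul_one, mul_one, mul_one, mul_assoc, ← pow_one x0, ← pow_mul,
          one_mul, e, mul_smul_comm, ← mul_assoc, ← pow_add]
        simp
      rw [this]
      exact Submodule.smul_mem _ _ (mem_span_std h _ _ _ _)
    · have e : x2 ^ k * x1 ^ b = (T (2 * k * b : ℤ) : Lv) • (x1 ^ b * x2 ^ k) := by
        simpa using qc_pow h.q12 k b
      have : x0 ^ i * x1 ^ j * x2 ^ (k + 1) * x0 =
          (T (b : ℤ) : Lv) • ((T (2 * k * b : ℤ) : Lv) • (x0 ^ i * x1 ^ (j + b) * x2 ^ k * x3 ^ 0)) +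
            x0 ^ i * x1 ^ j * x2 ^ k * x3 ^ 0 := by
        rw [pow_succ, mul_assoc _ (x2 ^ k * x2), mul_assoc (x2 ^ k), h.r02, mul_add, mul_add,
          mul_smul_comm, e, mul_one, pow_add, mul_smul_comm, mul_smul_comm, pow_zero, mul_one,
          mul_one]
        simp only [mul_assoc]
      rw [this]
      exact Submodule.add_mem _ (Submodule.smul_mem _ _ (Submodule.smul_mem _ _ (mem_span_std h _ _ _ _)))
        (mem_span_std h _ _ _ _)
  | succ l ih =>
    have : x0 ^ i * x1 ^ j * x2 ^ k * x3 ^ (l + 1) * x0 =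
        (T (-2) : Lv) • ((x0 ^ i * x1 ^ j * x2 ^ k * x3 ^ l * x0) * x3)
          + κ • (x0 ^ i * x1 ^ j * x2 ^ k * x3 ^ l * x1 ^ (b - 1) * x2 ^ (c - 1)) := by
      rw [pow_succ, ← mul_assoc, mul_assoc _ x3 x0, h03, mul_add, mul_smul_comm, mul_smul_comm]
      simp only [mul_assoc]
    rw [this]
    refine Submodule.add_mem _ (Submodule.smul_mem _ _ (mul_x3 h ih)) (Submodule.smul_mem _ _ ?_)
    exact mul_x2_pow h _ (mul_x1_pow h _ (mem_span_std h _ _ _ _))

theorem adjoin_le_span_std (h : Quad b c x0 x1 x2 x3) {κ : Lv}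
    (h03 : x3 * x0 = (T (-2) : Lv) • (x0 * x3) + κ • (x1 ^ (b - 1) * x2 ^ (c - 1))) {x : A}
    (hx : x ∈ Algebra.adjoin Lv ({x0, x1, x2, x3} : Set A)) :
    x ∈ Submodule.span Lv (stdSet x0 x1 x2 x3) := by
  have key : ∀ y ∈ Submodule.span Lv (stdSet x0 x1 x2 x3),
      y * x ∈ Submodule.span Lv (stdSet x0 x1 x2 x3) := by
    induction hx using Algebra.adjoin_induction with
    | mem x hx =>
      intro y hy
      simp only [Set.mem_insert_iff, Set.mem_singleton_iff] at hx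
      rcases hx with rfl | rfl | rfl | rfl
      · exact mul_x0 h h03 hy
      · exact mul_x1 h hy
      · exact mul_x2 h hy
      · exact mul_x3 h hy
    | algebraMap r =>
      intro y hy
      rw [← Algebra.commutes, ← Algebra.smul_def]
      exact Submodule.smul_mem _ _ hy
    | add x x' _ _ hx hx' =>
      intro y hy
      rw [mul_add]
      exact Submodule.add_mem _ (hx y hy) (hx' y hy)
    | mul x x' _ _ hx hx' =>
      intro y hy
      rw [← mul_assoc]
      exact hx' _ (hx y hy)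
  have h1 : (1 : A) ∈ Submodule.span Lv (stdSet x0 x1 x2 x3) := by
    have := mem_span_std h 0 0 0 0
    simpa using this
  simpa using key 1 h1

end

end general

end Pool.Agent.Helper41
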