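import Pool.Agent.Helper41.QTorus

/-!
One step of the rank 2 quantum exchange relations in a general algebra without zero divisors.
-/

set_option autoImplicit false

open LaurentPolynomial

namespace Pool.Agent.Helper41

section general
variable {A : Type} [Ring A] [Algebra Lv A]

theorem qc_pow_right {x y : A} {k : ℤ} (h : y * x = (T k : Lv) • (x * y)) (n : ℕ) :
    y * x ^ n = (T (k * n) : Lv) • (x ^ n * y) := by
  induction n with
  | zero => simp
  | succ n ih =>
    rw [pow_succ, ← mul_assoc, ih, smul_mul_assoc, mul_assoc, h, mul_smul_comm, smul_smul,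
      ← T_add, mul_assoc]
    congr 2
    push_cast; ring

theorem qc_pow {x y : A} {k : ℤ} (h : y * x = (T k : Lv) • (x * y)) (m n : ℕ) :
    y ^ m * x ^ n = (T (k * m * n) : Lv) • (x ^ n * y ^ m) := by
  induction m with
  | zero => simp
  | succ m ih =>
    rw [pow_succ', mul_assoc, ih, mul_smul_comm, ← mul_assoc, qc_pow_right h, smul_mul_assoc,
      smul_smul, ← T_add, mul_assoc (x ^ n) y (y ^ m)]
    congr 2
    push_cast; ring

theorem qc_pow' {x y : A} {k : ℤ} (h : y * x = (T k : Lv) • (x * y)) (m n : ℕ) :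
    x ^ n * y ^ m = (T (-(k * m * n)) : Lv) • (y ^ m * x ^ n) := by
  rw [qc_pow h, smul_smul, ← T_add]
  simp

/-- The relations satisfied by four consecutive cluster variables. -/
structure Quad (b c : ℕ) (x0 x1 x2 x3 : A) : Prop where
  r02 : x2 * x0 = (T (b : ℤ) : Lv) • x1 ^ b + 1
  r02' : x0 * x2 = (T (-(b : ℤ)) : Lv) • x1 ^ b + 1
  r13 : x3 * x1 = (T (c : ℤ) : Lv) • x2 ^ c + 1
  r13' : x1 * x3 = (T (-(c : ℤ)) : Lv) • x2 ^ c + 1
  q01 : x1 * x0 = (T 2 : Lv) • (x0 * x1)
  q12 : x2 * x1 = (T 2 : Lv) • (x1 * x2)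
  q23 : x3 * x2 = (T 2 : Lv) • (x2 * x3)
  n0 : x0 ≠ 0
  n1 : x1 ≠ 0
  n2 : x2 ≠ 0
  n3 : x3 ≠ 0

open Polynomial in
/-- The polynomial `P` with `P(x2) = x1 ^ n * x3 ^ n`. -/
noncomputable def prodPoly (c : ℕ) : ℕ → Polynomial Lv
  | 0 => 1
  | n + 1 => (Polynomial.C (T (-(c : ℤ) - 2 * c * n) : Lv) * Polynomial.X ^ c + 1) * prodPoly c n

theorem prodPoly_coeff_zero {c : ℕ} (hc : 0 < c) (n : ℕ) : (prodPoly c n).coeff 0 = 1 := by
  induction n with
  | zero => simp [prodPoly]
  | succ n ih =>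
    rw [prodPoly, Polynomial.mul_coeff_zero, ih]
    simp [Polynomial.coeff_X_pow, hc.ne]

theorem aeval_prodPoly {b c : ℕ} {x0 x1 x2 x3 : A} (h : Quad b c x0 x1 x2 x3) (n : ℕ) :
    Polynomial.aeval x2 (prodPoly c n) = x1 ^ n * x3 ^ n := by
  induction n with
  | zero => simp [prodPoly]
  | succ n ih =>
    rw [prodPoly, map_mul, ih]
    have h1 : x1 ^ (n + 1) * x3 ^ (n + 1) = x1 ^ n * (x1 * x3) * x3 ^ n := by
      rw [pow_succ, pow_succ']; simp only [mul_assoc]
    rw [h1, h.r13', mul_add, add_mul, mul_one, mul_smul_comm, qc_pow' h.q12, smul_smul, ← T_add]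
    simp only [map_add, map_mul, map_pow, Polynomial.aeval_X, Polynomial.aeval_C, map_one, add_mul,
      one_mul, Algebra.algebraMap_eq_smul_one, smul_mul_assoc, mul_assoc]
    congr 3

/-- The next cluster variable. -/
noncomputable def next (b c : ℕ) (x0 x2 x3 : A) : A :=
  (T (-(b : ℤ)) : Lv) • (x0 * x3 ^ b) - Polynomial.aeval x2 (Polynomial.divX (prodPoly c b))

theorem aeval_divX {b c : ℕ} (hc : 0 < c) {x0 x1 x2 x3 : A} (h : Quad b c x0 x1 x2 x3) (n : ℕ) :
    Polynomial.aeval x2 (Polynomial.divX (prodPoly c n)) * x2 = x1 ^ n * x3 ^ n - 1 := by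
  have h1 := Polynomial.divX_mul_X_add (prodPoly c n)
  rw [prodPoly_coeff_zero hc] at h1
  have h2 := congrArg (Polynomial.aeval x2) h1
  rw [aeval_prodPoly h] at h2
  rw [← h2]
  simp

theorem aeval_divX' {b c : ℕ} (hc : 0 < c) {x0 x1 x2 x3 : A} (h : Quad b c x0 x1 x2 x3) (n : ℕ) :
    x2 * Polynomial.aeval x2 (Polynomial.divX (prodPoly c n)) = x1 ^ n * x3 ^ n - 1 := by
  rw [← aeval_divX hc h n]
  have := congrArg (Polynomial.aeval x2) (mul_comm Polynomial.X (Polynomial.divX (prodPoly c n)))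
  simpa using this

theorem next_mul {b c : ℕ} (hc : 0 < c) {x0 x1 x2 x3 : A} (h : Quad b c x0 x1 x2 x3) :
    next b c x0 x2 x3 * x2 = (T (b : ℤ) : Lv) • x3 ^ b + 1 := by
  rw [next, sub_mul, aeval_divX hc h, smul_mul_assoc, mul_assoc]
  have h1 : x3 ^ b * x2 = (T (2 * b) : Lv) • (x2 * x3 ^ b) := by
    have := qc_pow h.q23 b 1
    simpa using this
  rw [h1, mul_smul_comm, smul_smul, ← T_add, ← mul_assoc, h.r02', add_mul, smul_mul_assoc, smul_add,
    smul_smul, ← T_add, one_mul]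
  have e1 : (-(b : ℤ) + 2 * b + -(b : ℤ)) = 0 := by ring
  have e2 : (-(b : ℤ) + 2 * b) = b := by ring
  rw [e1, e2, T_zero, one_smul]
  abel

theorem mul_next {b c : ℕ} (hc : 0 < c) {x0 x1 x2 x3 : A} (h : Quad b c x0 x1 x2 x3) :
    x2 * next b c x0 x2 x3 = (T (-(b : ℤ)) : Lv) • x3 ^ b + 1 := by
  rw [next, mul_sub, aeval_divX' hc h, mul_smul_comm, ← mul_assoc, h.r02, add_mul, smul_mul_assoc,
    smul_add, smul_smul, ← T_add, one_mul]
  have e1 : (-(b : ℤ) + (b : ℤ)) = 0 := by ring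
  rw [e1, T_zero, one_smul]
  abel

variable [NoZeroDivisors A]

theorem T_injective : Function.Injective (fun n : ℤ => (T n : Lv)) := by
  intro m n h
  by_contra hne
  have := congrArg (fun f : Lv => f.coeff m) h
  simp only [T_apply] at this
  rw [if_neg (Ne.symm hne)] at this
  simp at this

theorem Quad.step (hsmul : ∀ (r : Lv) (x : A), r • x = 0 → r = 0 ∨ x = 0)
    {b c : ℕ} (hb : 0 < b) (hc : 0 < c) {x0 x1 x2 x3 : A}
    (h : Quad b c x0 x1 x2 x3) : Quad c b x1 x2 x3 (next b c x0 x2 x3) where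
  r02 := h.r13
  r02' := h.r13'
  r13 := next_mul hc h
  r13' := mul_next hc h
  q01 := h.q12
  q12 := h.q23
  q23 := by
    have h4 := next_mul hc h
    set x4 := next b c x0 x2 x3 with hx4
    have : (x4 * x3) * x2 = ((T 2 : Lv) • (x3 * x4)) * x2 := by
      rw [mul_assoc, h.q23, mul_smul_comm, ← mul_assoc, h4, smul_mul_assoc, mul_assoc, h4, add_mul,
        mul_add, smul_mul_assoc, mul_smul_comm, ← pow_succ, ← pow_succ', one_mul, mul_one]
    have hc := mul_eq_mul_right_iff.1 this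
    rcases hc with hc | hc
    · exact hc
    · exact absurd hc h.n2
  n0 := h.n1
  n1 := h.n2
  n2 := h.n3
  n3 := by
    intro h0
    have h4 := next_mul hc h
    rw [h0, zero_mul] at h4
    have h5 : x3 ^ b = -((T (-(b : ℤ)) : Lv) • (1 : A)) := by
      have h6 : (T (b : ℤ) : Lv) • x3 ^ b = -1 := by
        rw [eq_neg_iff_add_eq_zero]; exact h4.symm
      have h7 := congrArg (fun z => (T (-(b : ℤ)) : Lv) • z) h6
      simp only [smul_smul, ← T_add] at h7
      simpa using h7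
    have h1 : x3 ^ b * x2 = (T (2 * b) : Lv) • (x2 * x3 ^ b) := by
      have := qc_pow h.q23 b 1
      simpa using this
    rw [h5, neg_mul, smul_mul_assoc, one_mul, mul_neg, mul_smul_comm, mul_one, smul_neg, smul_smul,
      ← T_add, neg_inj] at h1
    have h8 : ((T (-(b : ℤ)) : Lv) - T (2 * b + -(b : ℤ))) • x2 = 0 := by
      rw [sub_smul, ← h1, sub_self]
    rcases hsmul _ _ h8 with h9 | h9
    · have := T_injective (sub_eq_zero.1 h9)
      omega
    · exact h.n2 h9

end general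

end Pool.Agent.Helper41
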